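import Pool.Agent.Helper98.GX.St4

/-!
# Project GX (MP_140278_ag), module MNO
-/

set_option autoImplicit false

namespace Pool.Agent.Helper63.GX

open Pool.Agent.Helper98.GX
open Pool.Agent.Helper53.CX (DivVal LinSys IsNefCartier)

/-- **MNO.** -/
theorem hMNO (hTRO : StTRO) (hLC : Pool.Agent.Helper53.CX.StLC)
    (hBri : Pool.Agent.Helper53.CX.StBri) : StMNO := by
  intro K _ _ n L σ hσ v hv
  obtain ⟨v', hv', hom⟩ := (hTRO K n L σ hσ).1 v
  have h1 : Pool.Agent.Helper53.CX.ordOmega v' = -1 := hom.trans hv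
  have h2 := (hLC n v').2 h1
  have h3 := ((hBri n v').1 _).2 h2
  have hae : ∀ p : MvPolynomial (Fin n) ℂ, MvPolynomial.aeval L.z p =
      σ (algebraMap (Pool.Agent.Helper53.CX.Pn n) (Pool.Agent.Helper53.CX.Kn n) p) := by
    intro p
    have h4 : MvPolynomial.aeval L.z =
        ((σ : Pool.Agent.Helper53.CX.Kn n →ₐ[ℂ] K).comp
          (IsScalarTower.toAlgHom ℂ (Pool.Agent.Helper53.CX.Pn n)
            (Pool.Agent.Helper53.CX.Kn n))) := by
      apply MvPolynomial.algHom_ext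
      intro j
      rw [MvPolynomial.aeval_X]
      exact (hσ j).symm
    rw [h4]
    rfl
  intro p hp
  obtain ⟨h5, m, hm, h6⟩ := h3 p hp
  have hz : ∀ j, v'.ord (Pool.Agent.Helper53.CX.x j) = v.ord (L.z j) := by
    intro j
    rw [hv', hσ]
  have hw : ∀ m : Fin n →₀ ℕ, Pool.Agent.Helper53.CX.wt
      (fun j => v'.ord (Pool.Agent.Helper53.CX.x j)) m = ∑ j, v.ord (L.z j) * (m j : ℤ) := by
    intro m
    unfold Pool.Agent.Helper53.CX.wt
    refine Finset.sum_congr rfl fun j _ => ?_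
    show v'.ord (Pool.Agent.Helper53.CX.x j) * (m j : ℤ) = _
    rw [hz j]
  refine ⟨fun m' hm' => ?_, m, hm, ?_⟩
  · rw [hae, ← hv', ← hw]
    exact h5 m' hm'
  · rw [hae, ← hv', ← hw]
    exact h6

end Pool.Agent.Helper63.GX
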